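import Mathlib
import Pool.Agent.Work.MP_34e3ac_co.Main

/-!
Determination of all pairs `(m, n)` for which the adjacency matrix `A(m,n)` of the Hasse diagram
of `L(m,n)` is nonsingular.

`L(m,n)` is modelled as the type of weakly decreasing functions `Fin m → Fin (n + 1)` with the
componentwise order (containment of Young diagrams); `SimpleGraph.hasse` is Mathlib's Hasse
diagram (graph of the covering relation).

Proof idea.  Put `m` particles on a path with `m + n` sites; adding or deleting a box is moving
a particle to a neighbouring empty site.  Slater determinants of the sine eigenvectors of the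
path diagonalise `A(m,n)`, and its eigenvalues are the sums of `m` distinct numbers
`2 cos (π j / (m + n + 1))`, `1 ≤ j ≤ m + n`.  Such a sum can vanish exactly when `m` or `n` is
even or some prime `p ≤ min m n` divides `m + n + 1` (a statement about vanishing sums of roots
of unity).
-/

namespace Pool.Agent.Results.MP_34e3ac_co.NonsingularPairs

open Classical in
/-- `A(m,n)` is nonsingular if and only if `m` and `n` are both odd and `m + n + 1` has no prime
factor `p ≤ min m n`. -/
theorem result (m n : ℕ) (hm : 1 ≤ m) (hn : 1 ≤ n) :
    ((SimpleGraph.hasse {f : Fin m → Fin (n + 1) // Antitone f}).adjMatrix ℝ).det ≠ 0 ↔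
      Odd m ∧ Odd n ∧ ∀ p : ℕ, p.Prime → p ∣ m + n + 1 → min m n < p :=
  Pool.Agent.Work.MP_34e3ac_co.det_ne_zero_iff m n hm hn

end Pool.Agent.Results.MP_34e3ac_co.NonsingularPairs
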